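import Pool.Agent.K9h80.GQ.Main

/-!
# Mean workloads under rare huge services in GI/GI/k

For every first-come-first-served queue GI/GI/k with square integrable service and interarrival
times, positive means and `ρ = ES / (k ET) < 1`, and for the perturbed service times
`S (1 - β ε)` with probability `1 / (1 + ε ^ 2)`, `S (1 + β / ε)` with probability
`ε ^ 2 / (1 + ε ^ 2)`, the differences of the stationary mean workloads converge as `ε` tends to
zero from above: for the `k - 1` smallest ones to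
`([1 - k (1 - ρ)]_+ / ρ) β ^ 2 ES ^ 2 / (2 k ^ 2 (1 - ρ) ET)`, and for the largest one to
`β ^ 2 ES ^ 2 / (2 ET)` if `ρ ≤ 1 - 1 / k` and to `β ^ 2 ES ^ 2 / (2 ET)` times
`(ρ + (1 - ρ) (k - 1) ^ 2) / (k ^ 2 ρ (1 - ρ))` if `ρ > 1 - 1 / k`.

Definitions (`Pool.Agent.K9h80.GQ.Defs`): `sorted`, `after`, `kwStep`, `IsStat`, `perturb`.
-/

set_option autoImplicit false

namespace Pool.Agent.Results.MP_1ece5f_pr.MeanWorkloadLimits

open MeasureTheory Filter Topology Pool.Agent.K9h80.GQ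

theorem result (k : ℕ) (hk : 0 < k) (μS μT : Measure ℝ) [IsProbabilityMeasure μS]
    [IsProbabilityMeasure μT]
    -- nonnegative, square integrable service and interarrival times with positive means
    (hS0 : ∀ᵐ s ∂μS, 0 ≤ s) (hT0 : ∀ᵐ t ∂μT, 0 ≤ t)
    (hS2 : Integrable (fun s : ℝ => s ^ 2) μS) (hT2 : Integrable (fun t : ℝ => t ^ 2) μT)
    (hES : 0 < ∫ s, s ∂μS) (hET : 0 < ∫ t, t ∂μT)
    -- the traffic intensity
    (ρ : ℝ) (hρ : ρ = (∫ s, s ∂μS) / (k * ∫ t, t ∂μT)) (hρ1 : ρ < 1)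
    (β : ℝ) (hβ : 0 < β)
    -- stationary laws of the original and of the perturbed systems
    (π0 : Measure (Fin k → ℝ)) (hπ0 : IsStat μS μT π0)
    (π : ℝ → Measure (Fin k → ℝ))
    (hπ : ∀ ε, 0 < ε → ε < 1 / β → IsStat (perturb μS β ε) μT (π ε)) :
    -- the mean workloads are finite
    (∀ i, Integrable (fun w : Fin k → ℝ => w i) π0 ∧
      ∀ ε, 0 < ε → ε < 1 / β → Integrable (fun w : Fin k → ℝ => w i) (π ε)) ∧
    -- all workloads but the largest
    (∀ i : Fin k, (i : ℕ) + 1 < k →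
      Tendsto (fun ε => ∫ w, w i ∂(π ε) - ∫ w, w i ∂π0) (𝓝[>] 0)
        (𝓝 (max (1 - k * (1 - ρ)) 0 / ρ
          * (β ^ 2 * (∫ s, s ^ 2 ∂μS) / (2 * k ^ 2 * (1 - ρ) * ∫ t, t ∂μT))))) ∧
    -- the largest workload
    (∀ i : Fin k, (i : ℕ) + 1 = k →
      (ρ ≤ 1 - 1 / k → Tendsto (fun ε => ∫ w, w i ∂(π ε) - ∫ w, w i ∂π0) (𝓝[>] 0)
        (𝓝 (β ^ 2 * (∫ s, s ^ 2 ∂μS) / (2 * ∫ t, t ∂μT)))) ∧
      (1 - 1 / k < ρ → Tendsto (fun ε => ∫ w, w i ∂(π ε) - ∫ w, w i ∂π0) (𝓝[>] 0)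
        (𝓝 (β ^ 2 * (∫ s, s ^ 2 ∂μS) / (2 * ∫ t, t ∂μT)
          * ((ρ + (1 - ρ) * (k - 1) ^ 2) / (k ^ 2 * ρ * (1 - ρ))))))) := by
  obtain ⟨m, rfl⟩ : ∃ m, k = m + 1 := ⟨k - 1, by omega⟩
  have hm : (0 : ℝ) ≤ m := Nat.cast_nonneg m
  push_cast at hρ ⊢
  have hk0 : (0 : ℝ) < (m : ℝ) + 1 := by positivity
  set ES := ∫ s, s ∂μS with hESd
  set ET := ∫ t, t ∂μT with hETd
  have hE : ES = ρ * ((m + 1) * ET) := by rw [hρ]; field_simp
  have hρ0 : 0 < ρ := by rw [hρ]; positivity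
  have hs : Sys m μS μT :=
    { pσ := inferInstance, pτ := inferInstance, s0 := hS0, t0 := hT0, s2 := hS2, t2 := hT2
      stab := by
        rw [← hESd, ← hETd, hE]
        have : 0 < (m + 1) * ET := by positivity
        nlinarith }
  have hP : Fam m μS μT β π := hπ
  refine ⟨fun i => ⟨igr_coord hs hπ0 i, fun ε h0 h1 =>
    igr_coord (sys_perturb hs hβ h0 h1) (hπ ε h0 h1) i⟩, fun i hi => ?_, fun i hi => ⟨fun hlow => ?_,
      fun hhigh => ?_⟩⟩
  · have hi' : i ≠ Fin.last m := by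
      intro h
      rw [h, Fin.val_last] at hi
      omega
    rcases le_or_gt ES (m * ET) with h | h
    · have h1 : 1 - ((m : ℝ) + 1) * (1 - ρ) ≤ 0 := by
        rw [hE] at h
        have : ρ * (m + 1) ≤ m := by
          have h2 : (ρ * (m + 1)) * ET ≤ m * ET := by linarith
          exact le_of_mul_le_mul_right h2 hET
        linarith
      rw [max_eq_right h1, zero_div, zero_mul]
      exact (main_low hs hES hβ hπ0 hP h).1 i hi'
    · have h1 : 0 ≤ 1 - ((m : ℝ) + 1) * (1 - ρ) := by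
        rw [hE] at h
        have : (m : ℝ) < ρ * (m + 1) := by
          have h2 : m * ET < (ρ * (m + 1)) * ET := by linarith
          exact lt_of_mul_lt_mul_right h2 hET.le
        linarith
      rw [max_eq_left h1]
      have h3 := (main_high hs hβ hπ0 hP h).1 i hi'
      rw [← hESd, ← hETd] at h3
      have e : (1 - ((m : ℝ) + 1) * (1 - ρ)) / ρ
          * (β ^ 2 * (∫ s, s ^ 2 ∂μS) / (2 * ((m : ℝ) + 1) ^ 2 * (1 - ρ) * ET))
          = β ^ 2 * (∫ s, s ^ 2 ∂μS) / 2 * (ES - m * ET) / (((m + 1) * ET - ES) * ES) := by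
        rw [hE]
        have h4 : (1 - ρ) ≠ 0 := by linarith
        have h5 : ((m : ℝ) + 1) * ET - ρ * ((m + 1) * ET) = (m + 1) * ET * (1 - ρ) := by ring
        rw [h5]
        field_simp
        ring
      rw [e]
      exact h3
  · have hi' : i = Fin.last m := by
      apply Fin.ext
      rw [Fin.val_last]
      omega
    have h : ES ≤ m * ET := by
      rw [hE]
      have h1 : ρ * ((m : ℝ) + 1) ≤ m := by
        have h2 := mul_le_mul_of_nonneg_right hlow hk0.le
        have h3 : (1 - 1 / ((m : ℝ) + 1)) * (m + 1) = m := by field_simp; ring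
        linarith
      nlinarith
    rw [hi']
    exact (main_low hs hES hβ hπ0 hP h).2
  · have hi' : i = Fin.last m := by
      apply Fin.ext
      rw [Fin.val_last]
      omega
    have h : m * ET < ES := by
      rw [hE]
      have h1 : (m : ℝ) < ρ * ((m : ℝ) + 1) := by
        have h2 := mul_lt_mul_of_pos_right hhigh hk0
        have h3 : (1 - 1 / ((m : ℝ) + 1)) * (m + 1) = m := by field_simp; ring
        linarith
      nlinarith
    rw [hi']
    have h3 := (main_high hs hβ hπ0 hP h).2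
    rw [← hESd, ← hETd] at h3
    have e : β ^ 2 * (∫ s, s ^ 2 ∂μS) / (2 * ET)
          * ((ρ + (1 - ρ) * ((m : ℝ) + 1 - 1) ^ 2) / (((m : ℝ) + 1) ^ 2 * ρ * (1 - ρ)))
        = β ^ 2 * (∫ s, s ^ 2 ∂μS) / 2 / ((m + 1) * ET - ES)
          - m * (β ^ 2 * (∫ s, s ^ 2 ∂μS) / 2 * (ES - m * ET) / (((m + 1) * ET - ES) * ES)) := by
      rw [hE]
      have h4 : (1 - ρ) ≠ 0 := by linarith
      have h5 : ((m : ℝ) + 1) * ET - ρ * ((m + 1) * ET) = (m + 1) * ET * (1 - ρ) := by ring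
      rw [h5]
      field_simp
      ring
    rw [e]
    exact h3

end Pool.Agent.Results.MP_1ece5f_pr.MeanWorkloadLimits
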